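import Pool.Agent.W203.SP.Stm2

/-!
# Task SP-SUBST: the substitution `s_j = l_j ^ 2`
-/

set_option autoImplicit false

open MeasureTheory Set
open scoped ENNReal

namespace Pool.Agent.W334.SP

open Pool.Agent.W203.SP

/-- the derivative of `l ↦ (l_j ^ 2)_j` -/
noncomputable def dsq (k : ℕ) (l : Fin k → ℝ) : (Fin k → ℝ) →L[ℝ] (Fin k → ℝ) :=
  LinearMap.toContinuousLinearMap (Matrix.toLin' (Matrix.diagonal fun j => 2 * l j))

theorem dsq_det (k : ℕ) (l : Fin k → ℝ) : (dsq k l).det = ∏ j, (2 * l j) := by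
  unfold dsq ContinuousLinearMap.det
  rw [LinearMap.coe_toContinuousLinearMap, LinearMap.det_toLin', Matrix.det_diagonal]

theorem dsq_apply (k : ℕ) (l v : Fin k → ℝ) (j : Fin k) : dsq k l v j = 2 * l j * v j := by
  unfold dsq
  rw [LinearMap.coe_toContinuousLinearMap', Matrix.toLin'_apply, Matrix.mulVec_diagonal]

theorem dsq_hasFDerivAt (k : ℕ) (l : Fin k → ℝ) :
    HasFDerivAt (fun (l : Fin k → ℝ) (j : Fin k) => l j ^ 2) (dsq k l) l := by
  rw [hasFDerivAt_pi']
  intro i
  have h1 := (hasFDerivAt_apply (𝕜 := ℝ) i l).pow 2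
  refine h1.congr_fderiv ?_
  ext v
  simp only [ContinuousLinearMap.comp_apply, ContinuousLinearMap.proj_apply, dsq_apply]
  simp

theorem t_SUBST : S_SUBST := by
  intro k a b ha hab G hG
  set s : Set (Fin k → ℝ) := Icc (fun _ => a) (fun _ => b) with hs
  set f : (Fin k → ℝ) → (Fin k → ℝ) := fun l j => l j ^ 2 with hf
  have hsm : MeasurableSet s := measurableSet_Icc
  have hge : ∀ l ∈ s, ∀ j, a ≤ l j := fun l hl j => hl.1 j
  have hle : ∀ l ∈ s, ∀ j, l j ≤ b := fun l hl j => hl.2 j
  have hinj : InjOn f s := by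
    intro x hx y hy hxy
    ext j
    have h1 : x j ^ 2 = y j ^ 2 := congrFun hxy j
    have h2 := hge x hx j
    have h3 := hge y hy j
    exact (pow_left_inj₀ (by linarith) (by linarith) two_ne_zero).1 h1
  have h1 := lintegral_image_eq_lintegral_abs_det_fderiv_mul volume hsm
    (fun x _ => (dsq_hasFDerivAt k x).hasFDerivWithinAt) hinj G
  have hc : (0 : ℝ) < (2 * a) ^ k := by positivity
  have h2 : ∫⁻ l in s, G (f l) ≤ ENNReal.ofReal (((2 * a) ^ k)⁻¹) *
      ∫⁻ l in s, ENNReal.ofReal |(dsq k l).det| * G (f l) := by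
    rw [← lintegral_const_mul' _ _ ENNReal.ofReal_ne_top]
    apply setLIntegral_mono_ae' hsm
    refine Filter.Eventually.of_forall fun l hl => ?_
    rw [← mul_assoc, ← ENNReal.ofReal_mul (by positivity)]
    have h3 : (2 * a) ^ k ≤ |(dsq k l).det| := by
      rw [dsq_det]
      refine le_trans ?_ (le_abs_self _)
      have h4 : ∏ j : Fin k, (2 * a) ≤ ∏ j, (2 * l j) := by
        apply Finset.prod_le_prod
        · intro i _; positivity
        · intro i _
          have := hge l hl i
          linarith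
      simpa using h4
    have h5 : 1 ≤ ((2 * a) ^ k)⁻¹ * |(dsq k l).det| := by
      rw [inv_mul_eq_div, le_div_iff₀ hc, one_mul]
      exact h3
    calc G (f l) = 1 * G (f l) := (one_mul _).symm
      _ ≤ ENNReal.ofReal (((2 * a) ^ k)⁻¹ * |(dsq k l).det|) * G (f l) := by
        gcongr
        rw [ENNReal.one_le_ofReal]
        exact h5
  refine h2.trans ?_
  refine mul_le_mul_right ?_ _
  refine (le_of_eq h1.symm).trans ?_
  apply lintegral_mono_set
  rintro _ ⟨l, hl, rfl⟩
  constructor
  · intro j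
    have := hge l hl j
    change a ^ 2 ≤ l j ^ 2
    exact pow_le_pow_left₀ ha.le this 2
  · intro j
    have h3 := hge l hl j
    have h4 := hle l hl j
    change l j ^ 2 ≤ b ^ 2
    exact pow_le_pow_left₀ (by linarith) h4 2

end Pool.Agent.W334.SP
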